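import Pool.Agent.H992.PM.Defs

/-!
# `S_PQ`: powers
-/

set_option autoImplicit false
open MeasureTheory Filter Topology Complex ProbabilityTheory

namespace Pool.Agent.H358.PM

open Pool.Agent.N661.BH (loc)
open Pool.Agent.H992.PM

/-- `S_PQ`: powers -/
theorem pq : S_PQ := by
  intro Ω χ lam u q
  unfold pMean
  have h : ∀ z : ℂ, (1 / (4 * Real.pi) * ∫ θ in (0:ℝ)..(2 * Real.pi),
      (MvPolynomial.eval (fun j : Fin 1 => loc lam u z (Complex.exp (θ * I) * (fun _ : Fin 1 => (0:ℂ)) j))
          (MvPolynomial.X 0 ^ q) +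
        MvPolynomial.eval (fun j : Fin 1 => loc lam u z (Complex.exp (θ * I) *
          starRingEnd ℂ ((fun _ : Fin 1 => (0:ℂ)) j))) (MvPolynomial.X 0 ^ q))) = u z ^ q := by
    intro z
    have hpi : Real.pi ≠ 0 := Real.pi_ne_zero
    simp only [loc, map_pow, MvPolynomial.eval_X, map_zero, mul_zero, add_zero,
      intervalIntegral.integral_const, smul_eq_mul, sub_zero]
    field_simp
    ring
  simp only [h]

end Pool.Agent.H358.PM
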